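import Pool.Agent.Lib.MP_49fa77_co.H30.Iface

/-!
# UP: from the union inequality to the density
-/

set_option autoImplicit false

namespace FT58.AS.H22

open Real MeasureTheory Set Metric Filter Relation FT58 FT58.AS ENNReal

/-- area estimate in a big disk -/
lemma upper_area {n : ℕ} {D : ℝ} (hn : 1 ≤ n) (hD0 : 0 ≤ D) {c : Fin n → ℂ}
    (hU : ∀ T : Finset ℂ,
      (∀ v ∈ T, ∀ w ∈ T, v ≠ w → ∀ i j, 2 ≤ ‖(c i + v) - (c j + w)‖) →
      volume (⋃ x ∈ T ×ˢ (Finset.univ : Finset (Fin n)), closedBall (c x.2 + x.1) 1)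
        ≤ ENNReal.ofReal D * volume (⋃ x ∈ T ×ˢ (Finset.univ : Finset (Fin n)),
          closedBall (c x.2 + x.1) (2 / √3))) {V : Set ℂ}
    (hV : IsTransPacking (unitDisks c) V) : ∃ M : ℝ, 0 ≤ M ∧ ∀ R : ℝ, 0 ≤ R →
      volume (closedBall (0 : ℂ) R ∩ ⋃ v ∈ V, translate (unitDisks c) v)
        ≤ ENNReal.ofReal (D * (π * (R + M) ^ 2)) := by
  classical
  set B : ℝ := ∑ i, ‖c i‖ with hB
  have hBi : ∀ i, ‖c i‖ ≤ B := fun i => Finset.single_le_sum (f := fun i => ‖c i‖)
    (fun i _ => norm_nonneg _) (Finset.mem_univ i)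
  have hB0 : 0 ≤ B := Finset.sum_nonneg (fun i _ => norm_nonneg _)
  refine ⟨2 * B + 1 + 2 / √3, by positivity, ?_⟩
  intro R hR
  -- the relevant translates
  set A : Set ℂ := {v ∈ V | ‖v‖ ≤ R + B + 1} with hA
  have hAfin : A.Finite := by
    apply finite_of_sep (r := R + B + 1)
    · intro v hv w hw hne
      have := packing_sep hV hv.1 hw.1 hne ⟨0, hn⟩ ⟨0, hn⟩
      rwa [add_sub_add_left_eq_sub] at this
    · intro v hv; exact hv.2
  set T := hAfin.toFinset with hT
  set s : Finset (ℂ × Fin n) := T ×ˢ Finset.univ with hs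
  have hmain := hU T (by
      intro v hv w hw hne i j
      have hv1 : v ∈ A := (Set.Finite.mem_toFinset hAfin).mp hv
      have hw1 : w ∈ A := (Set.Finite.mem_toFinset hAfin).mp hw
      exact packing_sep hV hv1.1 hw1.1 hne i j)
  have hsub1 : closedBall (0 : ℂ) R ∩ ⋃ v ∈ V, translate (unitDisks c) v
      ⊆ ⋃ x ∈ s, closedBall (c x.2 + x.1) 1 := by
    rintro z ⟨hz, hzU⟩
    simp only [mem_iUnion] at hzU
    obtain ⟨v, hv, hzv⟩ := hzU
    rw [translate_unitDisks, mem_iUnion] at hzv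
    obtain ⟨i, hi⟩ := hzv
    rw [mem_closedBall, dist_zero_right] at hz
    rw [mem_closedBall, dist_eq_norm] at hi
    have hvA : v ∈ A := by
      refine ⟨hv, ?_⟩
      have e : v = z + -(z - (c i + v)) + -(c i) := by ring
      have h1 := norm_add_le (z + -(z - (c i + v))) (-(c i))
      have h2 := norm_add_le z (-(z - (c i + v)))
      rw [norm_neg] at h1 h2
      rw [← e] at h1
      have := hBi i
      linarith
    simp only [mem_iUnion]
    refine ⟨(v, i), ?_, ?_⟩
    · rw [hs, Finset.mem_product]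
      exact ⟨(Set.Finite.mem_toFinset hAfin).mpr hvA, Finset.mem_univ _⟩
    · rw [mem_closedBall, dist_eq_norm]; exact hi
  have hsub2 : (⋃ x ∈ s, closedBall (c x.2 + x.1) (2 / √3))
      ⊆ closedBall (0 : ℂ) (R + (2 * B + 1 + 2 / √3)) := by
    intro z hz
    simp only [mem_iUnion] at hz
    obtain ⟨x, hx, hz⟩ := hz
    rw [hs, Finset.mem_product] at hx
    have hx1 : x.1 ∈ A := (Set.Finite.mem_toFinset hAfin).mp hx.1
    rw [mem_closedBall, dist_eq_norm] at hz
    rw [mem_closedBall, dist_zero_right]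
    have e : z = (z - (c x.2 + x.1)) + c x.2 + x.1 := by ring
    have h1 := norm_add_le ((z - (c x.2 + x.1)) + c x.2) x.1
    have h2 := norm_add_le (z - (c x.2 + x.1)) (c x.2)
    rw [← e] at h1
    have h3 := hBi x.2
    have h4 := hx1.2
    linarith
  calc volume (closedBall (0 : ℂ) R ∩ ⋃ v ∈ V, translate (unitDisks c) v)
      ≤ volume (⋃ x ∈ s, closedBall (c x.2 + x.1) 1) := measure_mono hsub1
    _ ≤ ENNReal.ofReal D * volume (⋃ x ∈ s, closedBall (c x.2 + x.1) (2 / √3)) := hmain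
    _ ≤ ENNReal.ofReal D * volume (closedBall (0 : ℂ) (R + (2 * B + 1 + 2 / √3))) := by
        gcongr
    _ = ENNReal.ofReal (D * (π * (R + (2 * B + 1 + 2 / √3)) ^ 2)) := by
        rw [vol_closedBall _ (by positivity), ← ENNReal.ofReal_mul hD0]

/-- **Upper bound** for the upper density of a translative packing. -/
theorem upper_density {n : ℕ} {D : ℝ} (hn : 1 ≤ n) (hD0 : 0 ≤ D) {c : Fin n → ℂ}
    (hU : ∀ T : Finset ℂ,
      (∀ v ∈ T, ∀ w ∈ T, v ≠ w → ∀ i j, 2 ≤ ‖(c i + v) - (c j + w)‖) →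
      volume (⋃ x ∈ T ×ˢ (Finset.univ : Finset (Fin n)), closedBall (c x.2 + x.1) 1)
        ≤ ENNReal.ofReal D * volume (⋃ x ∈ T ×ˢ (Finset.univ : Finset (Fin n)),
          closedBall (c x.2 + x.1) (2 / √3))) {V : Set ℂ}
    (hV : IsTransPacking (unitDisks c) V) :
    upperDensity (⋃ v ∈ V, translate (unitDisks c) v) ≤ ENNReal.ofReal D := by
  obtain ⟨M, hM0, hM⟩ := upper_area hn hD0 hU hV
  unfold upperDensity
  have hlim : Tendsto (fun R : ℝ => ENNReal.ofReal (D * ((R + M) / R) ^ 2)) atTop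
      (nhds (ENNReal.ofReal D)) := ENNReal.tendsto_ofReal (ratio_tendsto D M)
  rw [← hlim.limsup_eq]
  refine limsup_le_limsup ?_ (by isBoundedDefault) (by isBoundedDefault)
  filter_upwards [eventually_gt_atTop 0] with R hR
  have h1 := hM R hR.le
  rw [vol_closedBall R hR.le]
  have hpos : 0 < π * R ^ 2 := by positivity
  calc volume (closedBall (0 : ℂ) R ∩ ⋃ v ∈ V, translate (unitDisks c) v)
        / ENNReal.ofReal (π * R ^ 2)
      ≤ ENNReal.ofReal (D * (π * (R + M) ^ 2)) / ENNReal.ofReal (π * R ^ 2) := by gcongr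
    _ = ENNReal.ofReal (D * ((R + M) / R) ^ 2) := by
        rw [← ENNReal.ofReal_div_of_pos hpos]
        congr 1
        field_simp

/-- UP: from the union inequality to the density. -/
theorem up_st : UpS := by
  intro n D hn hD0 hU
  exact iSup_le fun c => iSup₂_le fun _ hV => upper_density hn hD0 (hU c) hV

end FT58.AS.H22
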