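import Pool.Agent.Lib.MP_49fa77_co.H30.Iface3
import Pool.Agent.Lib.MP_49fa77_co.H22.Up

/-!
# F2: the upper bound with the exact order of the error term
-/

set_option autoImplicit false

namespace FT58.AS.H22

open Real MeasureTheory Set Metric Filter Relation FT58 FT58.AS

/-- F2: the upper bound. -/
theorem f2_st (hT2 : T2S) (hU3 : Un3S) : F2S := by
  obtain ⟨γ, hγ, N₀, hN0, h⟩ := hT2
  refine ⟨γ, hγ, N₀, hN0, fun n hn => ?_⟩
  obtain ⟨hD0, hc⟩ := h n hn
  have hn1 : 1 ≤ n := hN0.trans hn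
  refine iSup_le fun c => iSup₂_le fun V hV => ?_
  obtain ⟨δ₀, hδ, hcore⟩ := hc c
  exact upper_density hn1 hD0 (hU3 n c _ δ₀ hn1 hD0 hδ hcore) hV

end FT58.AS.H22
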